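import Mathlib
import Pool.Agent.Helper239.SegH

open MeasureTheory Filter Topology
open scoped ENNReal TensorProduct
open Pool.Agent.Helper239.SegA

/-- There are an amenable locally compact group `G` and a Segal algebra on `G` that is not
pseudo-amenable. -/
theorem Pool.Agent.Results.MP_dc0135_an.NotPseudoAmenable.result :
    ∃ (G : Type) (_ : Group G) (_ : TopologicalSpace G) (_ : IsTopologicalGroup G)
      (_ : T2Space G) (_ : LocallyCompactSpace G) (_ : MeasurableSpace G) (_ : BorelSpace G)
      (μ : Measure G) (_ : μ.IsHaarMeasure) (_ : μ.Regular), IsAmenable μ ∧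
      ∃ (A : Type) (_ : NonUnitalNormedRing A) (_ : NormedSpace ℂ A) (_ : IsScalarTower ℂ A A)
        (_ : SMulCommClass ℂ A A) (ι : A →ₗ[ℂ] Lp ℂ 1 μ),
        IsSegalAlgebra μ A ι ∧ ¬ IsPseudoAmenable A :=
  ⟨Pool.Agent.Helper239.SegB.GG, inferInstance, inferInstance, inferInstance, inferInstance, inferInstance,
    inferInstance, inferInstance, Pool.Agent.Helper239.SegB.mu, inferInstance, inferInstance, Pool.Agent.Helper239.SegH.isAmenable,
    Pool.Agent.Helper239.SegD.SS, inferInstance, inferInstance, inferInstance, inferInstance, Pool.Agent.Helper239.SegD.inc,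
    Pool.Agent.Helper239.SegG.isSegal, Pool.Agent.Helper239.SegG.not_pseudoAmenable⟩
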